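import Pool.Agent.H27.ZF.TA

/-!
Row PRI of the board zf: the small primes.
-/

set_option autoImplicit false

namespace Pool.Agent.H94.ZF

open Pool.Agent.H27.ZF

theorem pf_PRI : T_PRI := by
  intro C A hC
  have hC0 : 0 < C := lt_of_lt_of_le one_pos hC
  have hl : 0 ≤ Real.log C := Real.log_nonneg hC
  have hl4 : 0 ≤ Real.log 4 := Real.log_nonneg (by norm_num)
  refine ⟨Real.log C + A * Real.log 4 + 1, by positivity, fun n => ?_⟩
  set F : Finset ℕ := (Finset.range (n + 1)).filter Nat.Prime with hF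
  have h1 : ∏ p ∈ F, (C * (p : ℝ) ^ A) = C ^ F.card * (∏ p ∈ F, (p : ℝ)) ^ A := by
    rw [Finset.prod_mul_distrib, Finset.prod_const, Finset.prod_pow]
  have h2 : (∏ p ∈ F, (p : ℝ)) ≤ 4 ^ n := by
    have h : (∏ p ∈ F, p) ≤ 4 ^ n := primorial_le_four_pow n
    have h' : ((∏ p ∈ F, p : ℕ) : ℝ) ≤ ((4 ^ n : ℕ) : ℝ) := Nat.cast_le.2 h
    rw [Nat.cast_prod, Nat.cast_pow] at h'
    exact h'
  have h3 : F.card ≤ n := by
    have : F ⊆ Finset.Icc 1 n := by
      intro p hp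
      rw [hF, Finset.mem_filter, Finset.mem_range] at hp
      rw [Finset.mem_Icc]
      exact ⟨hp.2.one_lt.le, Nat.lt_succ_iff.1 hp.1⟩
    simpa using Finset.card_le_card this
  have h4 : C ^ F.card ≤ C ^ n := pow_le_pow_right₀ hC h3
  have h5 : (∏ p ∈ F, (p : ℝ)) ^ A ≤ ((4 : ℝ) ^ n) ^ A :=
    pow_le_pow_left₀ (Finset.prod_nonneg fun _ _ => Nat.cast_nonneg _) h2 A
  have h6 : C ^ n * ((4 : ℝ) ^ n) ^ A = Real.exp ((Real.log C + A * Real.log 4) * n) := by
    rw [add_mul, Real.exp_add]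
    congr 1
    · rw [mul_comm, Real.exp_nat_mul, Real.exp_log hC0]
    · have : (A : ℝ) * Real.log 4 * n = ((n * A : ℕ) : ℝ) * Real.log 4 := by
        push_cast
        ring
      rw [this, Real.exp_nat_mul, Real.exp_log (by norm_num : (0 : ℝ) < 4), pow_mul]
  rw [h1]
  calc C ^ F.card * (∏ p ∈ F, (p : ℝ)) ^ A ≤ C ^ n * ((4 : ℝ) ^ n) ^ A :=
        mul_le_mul h4 h5 (pow_nonneg (Finset.prod_nonneg fun _ _ => Nat.cast_nonneg _) _)
          (by positivity)
    _ = Real.exp ((Real.log C + A * Real.log 4) * n) := h6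
    _ ≤ Real.exp ((Real.log C + A * Real.log 4 + 1) * n) := by
        apply Real.exp_le_exp.2
        have : (0 : ℝ) ≤ n := Nat.cast_nonneg n
        nlinarith

end Pool.Agent.H94.ZF
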